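import Pool.Agent.W811.LW.Stm

/-! Project LW, part CL: the four instances of the dichotomy `ABS`. -/

set_option autoImplicit false
open Finset Filter Topology
open scoped ENNReal

namespace Pool.Agent.W630.LW

open Pool.Agent.W811.LW

theorem key (h : ABS) (D : ℕ) (P R : ℝ) (S : Set V3) (a b : V3 → ℝ) (a' : ℕ → V3 → ℝ)
    (b' : V3 → ℝ) (hD : 2 ≤ D) (hP : 1 ≤ P) (hR : 1 ≤ R) (hPR : P * R = (D : ℝ) ^ 2)
    (ha : ∀ (k : ℤ) (u : V3), a (smul3 k u) = k * a u)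
    (hb : ∀ (k : ℤ) (u : V3), b (smul3 k u) = k * b u)
    (hS : S.Nonempty) (h0 : ∀ v ∈ S, v ≠ (0, 0, 0))
    (hdiv : ∀ (k : ℤ) (u : V3), smul3 k u ∈ S → u ∈ S)
    (hpos : 0 < inN S a b)
    (e1 : ∀ d v, a' d v = P * (a v + (d : ℝ) / (D : ℝ) ^ 2 * b v))
    (e2 : ∀ v, b' v = b v / R) :
    (∀ d : ℕ, d < D ^ 2 → 0 < inN S (a' d) b' ∧ inN S a b ≤ 2 * (D : ℝ) ^ 2 * inN S (a' d) b') ∧
    ((∑ d ∈ range (D ^ 2), rs (inN S (a' d) b') ≤ (D : ℝ) ^ 2 * (16 * rs P * rs (inN S a b))) ∨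
      ∃ v ∈ S, ∃ w ∈ S, cr v w ≠ (0, 0, 0) ∧ NN a b v ≤ 8 * (D : ℝ) ^ 4 * inN S a b ∧
        NN a b w ≤ 8 * (D : ℝ) ^ 4 * inN S a b) := by
  have e1' : a' = fun (d : ℕ) v => P * (a v + (d : ℝ) / (D : ℝ) ^ 2 * b v) := by
    funext d v
    exact e1 d v
  have e2' : b' = fun v => b v / R := funext e2
  subst e1'
  subst e2'
  exact h D P R S a b hD hP hR hPR ha hb hS h0 hdiv hpos

theorem aV_lin (D : ℝ) (t : ℕ) (β : ℝ) (k : ℤ) (u : V3) :
    aV D t β (smul3 k u) = k * aV D t β u := by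
  simp only [aV, smul3]
  push_cast
  ring

theorem bV_lin (D : ℝ) (j t : ℕ) (k : ℤ) (u : V3) :
    bV D j t (smul3 k u) = k * bV D j t u := by
  simp only [bV, smul3]
  push_cast
  ring

theorem aW_lin (D : ℝ) (j t : ℕ) (α β : ℝ) (k : ℤ) (u : V3) :
    aW D j t α β (smul3 k u) = k * aW D j t α β u := by
  simp only [aW, smul3]
  push_cast
  ring

theorem bW_lin (D : ℝ) (t : ℕ) (k : ℤ) (u : V3) :
    bW D t (smul3 k u) = k * bW D t u := by
  simp only [bW, smul3]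
  push_cast
  ring

theorem one_le_abs_cast {k : ℤ} (hk : k ≠ 0) : (1 : ℝ) ≤ |(k : ℝ)| := by
  have := Int.one_le_abs hk
  exact_mod_cast this

theorem famV_div (D : ℝ) (hD : 0 ≤ D) (α : ℝ) (m : ℕ) (k : ℤ) (u : V3)
    (h : smul3 k u ∈ famV D α m) : u ∈ famV D α m := by
  obtain ⟨h1, h2⟩ := h
  simp only [smul3] at h1 h2
  have hk : k ≠ 0 := left_ne_zero_of_mul h1
  refine ⟨right_ne_zero_of_mul h1, ?_⟩
  have e : ((k * u.1 : ℤ) : ℝ) * α - ((k * u.2.1 : ℤ) : ℝ)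
      = (k : ℝ) * ((u.1 : ℝ) * α - (u.2.1 : ℝ)) := by
    push_cast
    ring
  rw [e, abs_mul] at h2
  have h3 := one_le_abs_cast hk
  have h4 : (0 : ℝ) ≤ |(u.1 : ℝ) * α - (u.2.1 : ℝ)| * D ^ (2 * m) := by positivity
  nlinarith [mul_le_mul_of_nonneg_right h3 h4]

theorem famW_div (D : ℝ) (m : ℕ) (k : ℤ) (u : V3)
    (h : smul3 k u ∈ famW D m) : u ∈ famW D m := by
  obtain ⟨h1, h2, h3⟩ := h
  simp only [smul3] at h1 h2 h3
  have hk : k ≠ 0 := left_ne_zero_of_mul h1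
  refine ⟨right_ne_zero_of_mul h1, right_ne_zero_of_mul h2, ?_⟩
  have e : ((k * u.2.1 : ℤ) : ℝ) = (k : ℝ) * (u.2.1 : ℝ) := by
    push_cast
    ring
  rw [e, abs_mul] at h3
  have h4 := one_le_abs_cast hk
  have h5 : (0 : ℝ) ≤ |(u.2.1 : ℝ)| := abs_nonneg _
  nlinarith [mul_le_mul_of_nonneg_right h4 h5]

theorem famV_ne (D : ℝ) (α : ℝ) (m : ℕ) (v : V3) (h : v ∈ famV D α m) : v ≠ (0, 0, 0) := by
  rintro rfl
  exact h.1 rfl

theorem famW_ne (D : ℝ) (m : ℕ) (v : V3) (h : v ∈ famW D m) : v ≠ (0, 0, 0) := by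
  rintro rfl
  exact h.1 rfl

theorem rs_one : rs 1 = 1 := by
  simp [rs]

theorem clv1 (h : ABS) (hp : POS) : CLV1 := by
  intro D c0 α β j t m hD hc hα
  have hD0 : (D : ℝ) ≠ 0 := by
    have : D ≠ 0 := by omega
    exact_mod_cast this
  have hD1 : (1 : ℝ) ≤ (D : ℝ) := by
    have : 1 ≤ D := by omega
    exact_mod_cast this
  obtain ⟨hn, -, hy, -⟩ := hp D α c0 β j t m hD hc hα
  have := key h D D D (famV (D : ℝ) α m) (aV D t β) (bV D j t)
    (fun d => aV D (t + 1) (β + (d : ℝ) / (D : ℝ) ^ (2 * (j + t) + 2))) (bV D j (t + 1))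
    hD hD1 hD1 (by ring) (aV_lin _ _ _) (bV_lin _ _ _) hn (famV_ne _ _ _)
    (famV_div _ (by linarith) _ _) hy
    (by
      intro d v
      simp only [aV, bV]
      rw [show 2 * (j + t) + 2 = (2 * j + t) + t + 2 by ring,
        pow_add (D : ℝ) (2 * j + t + t) 2, pow_add (D : ℝ) (2 * j + t) t, pow_succ (D : ℝ) t]
      field_simp
      try ring)
    (by
      intro v
      simp only [bV]
      rw [show 2 * j + (t + 1) = (2 * j + t) + 1 by ring, pow_succ]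
      field_simp)
  exact this

theorem clv0 (h : ABS) (hp : POS) : CLV0 := by
  intro D c0 α β j m hD hc hα
  have hD0 : (D : ℝ) ≠ 0 := by
    have : D ≠ 0 := by omega
    exact_mod_cast this
  have hD1 : (1 : ℝ) ≤ (D : ℝ) := by
    have : 1 ≤ D := by omega
    exact_mod_cast this
  obtain ⟨hn, -, hy, -⟩ := hp D α c0 β j 0 m hD hc hα
  have := key h D 1 ((D : ℝ) ^ 2) (famV (D : ℝ) α m) (aV D 0 β) (bV D j 0)
    (fun d => aV D 0 (β + (d : ℝ) / (D : ℝ) ^ (2 * j + 2))) (bV D (j + 1) 0)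
    hD le_rfl (one_le_pow₀ hD1) (by ring) (aV_lin _ _ _) (bV_lin _ _ _) hn (famV_ne _ _ _)
    (famV_div _ (by linarith) _ _) hy
    (by
      intro d v
      simp only [aV, bV]
      rw [add_zero, pow_zero, pow_add (D : ℝ) (2 * j) 2]
      field_simp
      ring)
    (by
      intro v
      simp only [bV]
      rw [show 2 * (j + 1) + 0 = 2 * j + 2 by ring, add_zero, pow_add (D : ℝ) (2 * j) 2]
      field_simp)
  rw [rs_one, mul_one] at this
  exact this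

theorem clw1 (h : ABS) (hp : POS) : CLW1 := by
  intro D c0 α β j t m hD hc hα
  have hD0 : (D : ℝ) ≠ 0 := by
    have : D ≠ 0 := by omega
    exact_mod_cast this
  have hD1 : (1 : ℝ) ≤ (D : ℝ) := by
    have : 1 ≤ D := by omega
    exact_mod_cast this
  obtain ⟨-, hn, -, hy⟩ := hp D α c0 β j t m hD hc hα
  have := key h D D D (famW (D : ℝ) m) (aW D j t α β) (bW D t)
    (fun d => aW D j (t + 1) α (β + (d : ℝ) / (D : ℝ) ^ (2 * (j + t) + 2))) (bW D (t + 1))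
    hD hD1 hD1 (by ring) (aW_lin _ _ _ _ _) (bW_lin _ _) hn (famW_ne _ _)
    (famW_div _ _) hy
    (by
      intro d v
      simp only [aW, bW]
      rw [show 2 * (j + t) + 2 = (2 * j + t) + t + 2 by ring,
        pow_add (D : ℝ) (2 * j + t + t) 2, pow_add (D : ℝ) (2 * j + t) t,
        show 2 * j + (t + 1) = (2 * j + t) + 1 by ring, pow_succ (D : ℝ) (2 * j + t)]
      field_simp
      try ring)
    (by
      intro v
      simp only [bW]
      rw [pow_succ]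
      field_simp)
  exact this

theorem clw0 (h : ABS) (hp : POS) : CLW0 := by
  intro D c0 α β j m hD hc hα
  have hD0 : (D : ℝ) ≠ 0 := by
    have : D ≠ 0 := by omega
    exact_mod_cast this
  have hD1 : (1 : ℝ) ≤ (D : ℝ) := by
    have : 1 ≤ D := by omega
    exact_mod_cast this
  obtain ⟨-, hn, -, hy⟩ := hp D α c0 β j 0 m hD hc hα
  have := key h D ((D : ℝ) ^ 2) 1 (famW (D : ℝ) m) (aW D j 0 α β) (bW D 0)
    (fun d => aW D (j + 1) 0 α (β + (d : ℝ) / (D : ℝ) ^ (2 * j + 2))) (bW D 0)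
    hD (one_le_pow₀ hD1) le_rfl (by ring) (aW_lin _ _ _ _ _) (bW_lin _ _) hn (famW_ne _ _)
    (famW_div _ _) hy
    (by
      intro d v
      simp only [aW, bW]
      rw [show 2 * (j + 1) + 0 = 2 * j + 2 by ring, add_zero, pow_zero, pow_add (D : ℝ) (2 * j) 2]
      field_simp
      ring)
    (by
      intro v
      rw [div_one])
  exact this

end Pool.Agent.W630.LW
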